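import Pool.Agent.Lib.H25D.PS

/-!
# H71N: near_seg and near_exist from near_add (for H25D chunk P4, MP_273810)
-/

open Set

namespace Pool.Agent.Lib.H71N

open Pool.Agent.Lib.H25D

open Pool.Agent.Lib.H42I (IsPolygon Ray RayS)
open Pool.Agent.Lib.H45Z
open Pool.Agent.H52W (cdet)
open Pool.Agent.Lib.H23D (E Gon)

variable {n N : ℕ} [NeZero n] [NeZero N] {P : Set ℂ} {v : ZMod n → ℂ} {kap : ZMod n → ZMod N}

/-- the statement of `near_add` -/
def NearAdd (hP : IsPolygon P v) (hk : Par v kap) : Prop := ∃ r₀ > 0, ∀ (i : ZMod n) (x : SPt P v N),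
    ‖x.p - v i‖ < r₀ → ∀ u : ℂ, ‖u‖ < rho2 v x.p →
      ‖(sadd hP hk x u).p - v i‖ = ‖x.p + fr x.g u - v i‖ ∧
      ∀ W : ℂ, (((sadd hP hk x u).p - v i) * (starRingEnd ℂ) (fr (sadd hP hk x u).g W)).re =
        ((x.p + fr x.g u - v i) * (starRingEnd ℂ) (fr x.g W)).re

theorem h71_norm_add_mul (a b : ℂ) (h : ℝ) :
    ‖a + (h : ℂ) * b‖ ^ 2 = ‖a‖ ^ 2 + 2 * h * (a * (starRingEnd ℂ) b).re + h ^ 2 * ‖b‖ ^ 2 := by
  rw [← Complex.normSq_eq_norm_sq, ← Complex.normSq_eq_norm_sq, ← Complex.normSq_eq_norm_sq]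
  simp only [Complex.normSq_apply, Complex.add_re, Complex.add_im, Complex.mul_re, Complex.mul_im,
    Complex.ofReal_re, Complex.ofReal_im, Complex.conj_re, Complex.conj_im]
  ring

theorem h71_re_add_mul (a b : ℂ) (h : ℝ) :
    ((a + (h : ℂ) * b) * (starRingEnd ℂ) b).re = (a * (starRingEnd ℂ) b).re + h * ‖b‖ ^ 2 := by
  rw [← Complex.normSq_eq_norm_sq]
  simp only [Complex.normSq_apply, Complex.add_re, Complex.add_im, Complex.mul_re, Complex.mul_im,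
    Complex.ofReal_re, Complex.ofReal_im, Complex.conj_re, Complex.conj_im]
  ring

/-- the same for segments: as long as the unfolded segment stays in the ball -/
theorem near_seg_of (hP : IsPolygon P v) (hk : Par v kap) (hadd : NearAdd hP hk) : ∃ r₀ > 0, ∀ (i : ZMod n) (x y : SPt P v N)
    (W : ℂ), (∀ s ∈ Icc (0 : ℝ) 1, ‖x.p + (s : ℂ) * fr x.g W - v i‖ < r₀) →
      (PS hP hk).Seg x W y → ‖y.p - v i‖ = ‖x.p + fr x.g W - v i‖ ∧
      ((y.p - v i) * (starRingEnd ℂ) (fr y.g W)).re =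
        ((x.p + fr x.g W - v i) * (starRingEnd ℂ) (fr x.g W)).re := by
  obtain ⟨r₀, hr₀, ha⟩ := hadd
  refine ⟨r₀, hr₀, fun i x y W hW hxy => ?_⟩
  obtain ⟨z, ρ, hρ, h0, h1, hrad, -, hp⟩ := TSurf.seg_path hxy
  obtain ⟨m, hm⟩ := exists_nat_gt (‖W‖ / ρ)
  have hm0 : (0 : ℝ) < m := lt_of_le_of_lt (div_nonneg (norm_nonneg _) hρ.le) hm
  have hmW : 1 / (m : ℝ) * ‖W‖ < ρ := by
    rw [div_lt_iff₀ hρ] at hm
    rw [one_div, inv_mul_lt_iff₀ hm0]
    linarith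
  have key : ∀ k : ℕ, k ≤ m → ‖(z ((k : ℝ) / m)).p - v i‖ =
      ‖x.p + (((k : ℝ) / m : ℝ) : ℂ) * fr x.g W - v i‖ ∧
      (((z ((k : ℝ) / m)).p - v i) * (starRingEnd ℂ) (fr (z ((k : ℝ) / m)).g W)).re =
        ((x.p + (((k : ℝ) / m : ℝ) : ℂ) * fr x.g W - v i) * (starRingEnd ℂ) (fr x.g W)).re := by
    intro k
    induction k with
    | zero =>
      intro _
      simp [h0]
    | succ k ih =>
      intro hk1
      obtain ⟨q1, q2⟩ := ih (by omega)
      have hkm : (k : ℝ) + 1 ≤ m := by exact_mod_cast hk1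
      have hs : (k : ℝ) / m ∈ Icc (0 : ℝ) 1 :=
        ⟨by positivity, by rw [div_le_one hm0]; linarith⟩
      have hs' : ((k + 1 : ℕ) : ℝ) / m ∈ Icc (0 : ℝ) 1 :=
        ⟨by positivity, by rw [div_le_one hm0]; push_cast; exact hkm⟩
      have hdiff : ((k + 1 : ℕ) : ℝ) / m - (k : ℝ) / m = 1 / m := by push_cast; ring
      have hstep := hp _ hs _ hs' (by rw [hdiff, abs_of_pos (by positivity)]; exact hmW)
      rw [hdiff] at hstep
      set w := z ((k : ℝ) / m) with hw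
      have hnu : ‖((1 / (m : ℝ) : ℝ) : ℂ) * W‖ < rho2 v w.p := by
        rw [norm_mul, Complex.norm_real, Real.norm_eq_abs, abs_of_pos (by positivity)]
        exact hmW.trans_le (hrad _ hs)
      obtain ⟨a1, a2⟩ := ha i w (by rw [q1]; exact hW _ hs) _ hnu
      have a2' := a2 W
      change ‖(sadd hP hk w _).p - v i‖ = _ at a1
      change z (((k + 1 : ℕ) : ℝ) / m) = sadd hP hk w _ at hstep
      rw [hstep, a1, a2']
      have e1 : w.p + fr w.g (((1 / (m : ℝ) : ℝ) : ℂ) * W) - v i =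
          (w.p - v i) + ((1 / (m : ℝ) : ℝ) : ℂ) * fr w.g W := by rw [fr_real]; ring
      have e2 : x.p + ((((k + 1 : ℕ) : ℝ) / m : ℝ) : ℂ) * fr x.g W - v i =
          (x.p + (((k : ℝ) / m : ℝ) : ℂ) * fr x.g W - v i) + ((1 / (m : ℝ) : ℝ) : ℂ) * fr x.g W := by
        push_cast; ring
      rw [e1, e2]
      constructor
      · rw [← pow_left_inj₀ (norm_nonneg _) (norm_nonneg _) two_ne_zero, h71_norm_add_mul,
          h71_norm_add_mul, q1, q2, norm_fr, norm_fr]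
      · rw [h71_re_add_mul, h71_re_add_mul, q2, norm_fr, norm_fr]
  have hfin := key m le_rfl
  have e : (m : ℝ) / m = 1 := div_self hm0.ne'
  rw [e, h1] at hfin
  simpa using hfin

theorem h71_vdist (hP : IsPolygon P v) : ∃ d > 0, ∀ i j : ZMod n, i ≠ j → d ≤ ‖v i - v j‖ := by
  classical
  by_cases hne : ∃ p : ZMod n × ZMod n, p.1 ≠ p.2
  · obtain ⟨m, hm, hmin⟩ := (Set.toFinite {p : ZMod n × ZMod n | p.1 ≠ p.2}).exists_minimalFor
      (fun p => ‖v p.1 - v p.2‖) _ hne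
    refine ⟨‖v m.1 - v m.2‖, norm_pos_iff.2 (sub_ne_zero.2 fun h => hm (hP.inj h)), ?_⟩
    intro i j hij
    by_contra hcon
    rw [not_le] at hcon
    exact absurd (hmin (j := (i, j)) hij hcon.le) (not_le.2 hcon)
  · exact ⟨1, one_pos, fun i j hij => absurd ⟨(i, j), hij⟩ hne⟩

/-- existence of segments near a vertex, if the unfolded segment avoids the vertex -/
theorem near_exist_of (hP : IsPolygon P v) (hk : Par v kap) (hadd : NearAdd hP hk) : ∃ r₀ > 0, ∀ (i : ZMod n) (x : SPt P v N)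
    (W : ℂ), (∀ s ∈ Icc (0 : ℝ) 1, ‖x.p + (s : ℂ) * fr x.g W - v i‖ < r₀ ∧
      x.p + (s : ℂ) * fr x.g W ≠ v i) → ∃ y, (PS hP hk).Seg x W y := by
  obtain ⟨r₁, hr₁, hns⟩ := near_seg_of hP hk hadd
  obtain ⟨d, hd, hdv⟩ := h71_vdist hP
  refine ⟨min r₁ (d / 2), lt_min hr₁ (half_pos hd), fun i x W hW => ?_⟩
  -- distance of the unfolded segment from the vertex
  obtain ⟨δ, hδ, hδb⟩ : ∃ δ > 0, ∀ s ∈ Icc (0 : ℝ) 1, δ ≤ ‖x.p + (s : ℂ) * fr x.g W - v i‖ := by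
    have hc : ContinuousOn (fun s : ℝ => ‖x.p + (s : ℂ) * fr x.g W - v i‖) (Icc 0 1) := by
      fun_prop
    obtain ⟨s₀, hs₀, hmin⟩ := isCompact_Icc.exists_isMinOn (nonempty_Icc.2 zero_le_one) hc
    exact ⟨_, norm_pos_iff.2 (sub_ne_zero.2 (hW s₀ hs₀).2), fun s hs => hmin hs⟩
  -- lower bound of the radius
  obtain ⟨ε, hε, hεb⟩ : ∃ ε > 0, ∀ p ∈ P, δ ≤ ‖p - v i‖ → ‖p - v i‖ ≤ d / 2 → ε ≤ rho2 v p := by
    have hcont : Continuous fun p : ℂ => ‖p - v i‖ := by fun_prop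
    have hclosed : IsClosed {p : ℂ | δ ≤ ‖p - v i‖ ∧ ‖p - v i‖ ≤ d / 2} := by
      have e : {p : ℂ | δ ≤ ‖p - v i‖ ∧ ‖p - v i‖ ≤ d / 2} =
          {p : ℂ | δ ≤ ‖p - v i‖} ∩ {p : ℂ | ‖p - v i‖ ≤ d / 2} := by
        ext p; simp
      rw [e]
      exact (isClosed_le continuous_const hcont).inter (isClosed_le hcont continuous_const)
    have hK : IsCompact (P ∩ {p : ℂ | δ ≤ ‖p - v i‖ ∧ ‖p - v i‖ ≤ d / 2}) :=
      hP.compact.inter_right hclosed
    rcases (P ∩ {p : ℂ | δ ≤ ‖p - v i‖ ∧ ‖p - v i‖ ≤ d / 2}).eq_empty_or_nonempty with h0 | h0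
    · refine ⟨1, one_pos, fun p hp h1 h2 => ?_⟩
      have : p ∈ P ∩ {p : ℂ | δ ≤ ‖p - v i‖ ∧ ‖p - v i‖ ≤ d / 2} := ⟨hp, h1, h2⟩
      rw [h0] at this
      exact absurd this (Set.notMem_empty p)
    · obtain ⟨m, hm, hmin⟩ := hK.exists_isMinOn h0 (rho2_continuous hP.three_le v).continuousOn
      refine ⟨rho2 v m, rho2_pos hP m ?_, fun p hp h1 h2 => hmin ⟨hp, h1, h2⟩⟩
      intro j hj
      by_cases hij : j = i
      · have := hm.2.1
        rw [hj, hij, sub_self, norm_zero] at this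
        linarith
      · have h1 := hdv j i hij
        have h2 := hm.2.2
        rw [hj] at h2
        linarith
  obtain ⟨m, hm⟩ := exists_nat_gt (‖W‖ / ε)
  have hm0 : (0 : ℝ) < m := lt_of_le_of_lt (div_nonneg (norm_nonneg _) hε.le) hm
  have hmW : 1 / (m : ℝ) * ‖W‖ < ε := by
    rw [div_lt_iff₀ hε] at hm
    rw [one_div, inv_mul_lt_iff₀ hm0]
    linarith
  have key : ∀ k : ℕ, k ≤ m → ∃ y, (PS hP hk).Seg x ((((k : ℝ) / m : ℝ) : ℂ) * W) y := by
    intro k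
    induction k with
    | zero =>
      intro _
      exact ⟨x, by simpa using TSurf.seg_refl (M := PS hP hk) x⟩
    | succ k ih =>
      intro hk1
      obtain ⟨y, hy⟩ := ih (by omega)
      have hkm : (k : ℝ) + 1 ≤ m := by exact_mod_cast hk1
      have hs : (k : ℝ) / m ∈ Icc (0 : ℝ) 1 :=
        ⟨by positivity, by rw [div_le_one hm0]; linarith⟩
      have h1 := (hns i x y _ (fun s hs1 => by
        have e : x.p + (s : ℂ) * fr x.g ((((k : ℝ) / m : ℝ) : ℂ) * W) - v i =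
            x.p + ((s * ((k : ℝ) / m) : ℝ) : ℂ) * fr x.g W - v i := by
          rw [fr_real]; push_cast; ring
        rw [e]
        exact (hW _ ⟨mul_nonneg hs1.1 hs.1, mul_le_one₀ hs1.2 hs.1 hs.2⟩).1.trans_le
          (min_le_left _ _)) hy).1
      rw [fr_real] at h1
      have h2 : δ ≤ ‖y.p - v i‖ := by rw [h1]; exact hδb _ hs
      have h3 : ‖y.p - v i‖ ≤ d / 2 := by
        rw [h1]; exact ((hW _ hs).1.trans_le (min_le_right _ _)).le
      have h4 : ‖((1 / (m : ℝ) : ℝ) : ℂ) * W‖ < (PS hP hk).rad y := by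
        rw [norm_mul, Complex.norm_real, Real.norm_eq_abs, abs_of_pos (by positivity)]
        exact hmW.trans_le (hεb _ y.mem h2 h3)
      have h5 := TSurf.seg_line hy (TSurf.seg_add h4)
      have e : ((k + 1 : ℕ) : ℝ) / m = (k : ℝ) / m + 1 / m := by push_cast; ring
      rw [e]
      exact ⟨_, h5⟩
  obtain ⟨y, hy⟩ := key m le_rfl
  refine ⟨y, ?_⟩
  have e : (m : ℝ) / m = 1 := div_self hm0.ne'
  rw [e] at hy
  simpa using hy

end Pool.Agent.Lib.H71N
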