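import Pool.Agent.Lib.H71N.Near

/-!
# H71N: near_add (for H25D chunk P4, MP_273810)
-/

open Set Metric

namespace Pool.Agent.Lib.H71N

open Pool.Agent.Lib.H25D

open Pool.Agent.Lib.H42I (IsPolygon Ray RayS)
open Pool.Agent.Lib.H45Z
open Pool.Agent.H52W (cdet)
open Pool.Agent.Lib.H23D (E Gon)

variable {n N : ℕ} [NeZero n] [NeZero N] {P : Set ℂ} {v : ZMod n → ℂ} {kap : ZMod n → ZMod N}

/-- the nearest side of a point near a vertex is incident to the vertex -/
theorem ns_near (hP : IsPolygon P v) : ∃ r₀ > 0, ∀ (i : ZMod n) (p : ℂ), ‖p - v i‖ < r₀ →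
    ns v p = i ∨ ns v p = i - 1 := by
  have hpos : ∀ i j : ZMod n, j ≠ i → j ≠ i - 1 → 0 < sd v (v i) j := by
    intro i j h1 h2
    refine lt_of_le_of_ne (sd_nonneg v (v i) j) fun h0 => ?_
    have h3 := (sd_eq_zero_iff v (v i) j).1 h0.symm
    have h4 := hP.simple i j (Ne.symm h1) ⟨left_mem_segment ℝ _ _, h3⟩
    rcases h4.2 with h5 | h5
    · exact h1 (hP.inj h5).symm
    · have h6 := hP.inj h5
      exact h2 (by rw [h6]; ring)
  obtain ⟨r, hr, hrb⟩ : ∃ r > 0, ∀ i j : ZMod n, j ≠ i → j ≠ i - 1 → r ≤ sd v (v i) j := by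
    by_cases hne : ∃ q : ZMod n × ZMod n, q.2 ≠ q.1 ∧ q.2 ≠ q.1 - 1
    · obtain ⟨m, hm, hmin⟩ := (Set.toFinite {q : ZMod n × ZMod n | q.2 ≠ q.1 ∧ q.2 ≠ q.1 - 1}).exists_minimalFor
        (fun q => sd v (v q.1) q.2) _ hne
      refine ⟨_, hpos _ _ hm.1 hm.2, ?_⟩
      intro i j h1 h2
      by_contra hcon
      rw [not_le] at hcon
      exact absurd (hmin (j := (i, j)) ⟨h1, h2⟩ hcon.le) (not_le.2 hcon)
    · exact ⟨1, one_pos, fun i j h1 h2 => absurd ⟨(i, j), h1, h2⟩ hne⟩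
  refine ⟨r / 2, half_pos hr, fun i p hp => ?_⟩
  by_contra hcon
  rw [not_or] at hcon
  have h1 := hrb i _ hcon.1 hcon.2
  have h2 := ns_spec hP.three_le v p i
  have h3 : sd v p i ≤ ‖p - v i‖ := by
    rw [← dist_eq_norm]
    exact infDist_le_dist_of_mem (left_mem_segment ℝ _ _)
  have h4 := sd_le_add v (v i) p (ns v p)
  rw [norm_sub_rev] at h4
  linarith

theorem mir_sub (hP : IsPolygon P v) (hk : Par v kap) {i j : ZMod n} (hj : j = i ∨ j = i - 1) (z : ℂ) :
    mir v kap j z - v i = E (2 * kap j) * (starRingEnd ℂ) (z - v i) := by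
  have hm : v i ∈ segment ℝ (v j) (v (j + 1)) := by
    rcases hj with rfl | rfl
    · exact left_mem_segment ℝ _ _
    · rw [sub_add_cancel]; exact right_mem_segment ℝ _ _
  have h1 := mir_side hk j (v i) hm
  have h2 : mir v kap j z - mir v kap j (v i) = E (2 * kap j) * (starRingEnd ℂ) (z - v i) := by
    unfold mir
    have e : v j + E (2 * kap j) * (starRingEnd ℂ) (z - v j) -
        (v j + E (2 * kap j) * (starRingEnd ℂ) (v i - v j)) =
        E (2 * kap j) * ((starRingEnd ℂ) (z - v j) - (starRingEnd ℂ) (v i - v j)) := by ring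
    rw [e, ← map_sub]
    congr 2
    ring
  rwa [h1] at h2

theorem re_fold (kap : ZMod n → ZMod N) (j : ZMod n) (g : Fr N) (a W : ℂ) :
    ((E (2 * kap j) * (starRingEnd ℂ) a) * (starRingEnd ℂ) (fr (rf kap j g) W)).re =
      (a * (starRingEnd ℂ) (fr g W)).re := by
  rw [fr_rf, map_mul, Complex.conj_conj]
  have h1 : E (2 * kap j) * (starRingEnd ℂ) (E (2 * kap j)) = 1 := by
    rw [Complex.mul_conj, Complex.normSq_eq_norm_sq, norm_E]
    norm_num
  have e : E (2 * kap j) * (starRingEnd ℂ) a * ((starRingEnd ℂ) (E (2 * kap j)) * fr g W) =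
      (E (2 * kap j) * (starRingEnd ℂ) (E (2 * kap j))) * (starRingEnd ℂ) (a * (starRingEnd ℂ) (fr g W)) := by
    rw [map_mul, Complex.conj_conj]; ring
  rw [e, h1, one_mul, Complex.conj_re]

theorem near_add_proof (hP : IsPolygon P v) (hk : Par v kap) : NearAdd (N := N) hP hk := by
  obtain ⟨r₀, hr₀, hns⟩ := ns_near hP
  refine ⟨r₀, hr₀, fun i x hx u hu => ?_⟩
  have hj := hns i x.p hx
  by_cases h1 : x.p + fr x.g u ∈ interior P
  · obtain ⟨e1, e2⟩ := sadd_int hP hk x u hu h1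
    rw [e1, e2]
    exact ⟨rfl, fun W => rfl⟩
  by_cases h2 : x.p + fr x.g u ∈ P
  · obtain ⟨e1, e2⟩ := sadd_side hP hk x u hu h2 h1
    rw [e1, e2]
    refine ⟨rfl, fun W => ?_⟩
    by_cases hg : x.g.2 = true
    · rw [if_pos hg]
      have hfr : x.p + fr x.g u ∈ frontier P := ⟨subset_closure h2, h1⟩
      rw [hP.frontier_eq] at hfr
      obtain ⟨k, hk1⟩ := mem_iUnion.1 hfr
      have h3 := ns_eq hP.three_le v x.p (ball_fr (g := x.g) hu) hk1
      rw [← h3] at hk1
      have h4 := mir_side hk _ _ hk1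
      have h5 := mir_sub hP hk hj (x.p + fr x.g u)
      rw [h4] at h5
      have h6 := re_fold kap (ns v x.p) x.g (x.p + fr x.g u - v i) W
      rw [← h5] at h6
      exact h6
    · rw [if_neg hg]
  · obtain ⟨e1, e2⟩ := sadd_out hP hk x u hu h2
    rw [e1, e2, ← mir_add]
    have h5 := mir_sub hP hk hj (x.p + fr x.g u)
    rw [h5]
    exact ⟨by rw [norm_mul, norm_E, one_mul, Complex.norm_conj], fun W => re_fold kap _ x.g _ W⟩

end Pool.Agent.Lib.H71N
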