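import Mathlib

set_option autoImplicit false

/-! Direct sum decompositions of locally convex topological lattice ordered groups are topological. -/

namespace Pool.Agent.H71N

open Topology

theorem one_le_sup_inv {G : Type*} [Group G] [Lattice G] [MulLeftMono G] [MulRightMono G] (g : G) :
    1 ≤ g ⊔ g⁻¹ := one_le_mabs g

theorem homeo_of_convex {G : Type*} [Group G] [Lattice G] [MulLeftMono G] [MulRightMono G]
    [TopologicalSpace G] [IsTopologicalGroup G] [TopologicalLattice G]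
    (hconv : ∀ U ∈ 𝓝 (1 : G), ∃ V ∈ 𝓝 (1 : G), V ⊆ U ∧ V.OrdConnected)
    (A B : Subgroup G) (hA : A.Normal) (hB : B.Normal)
    (hbij : Function.Bijective (fun p : A × B => (p.1 : G) * (p.2 : G)))
    (hord : ∀ p q : A × B, p ≤ q ↔ (p.1 : G) * (p.2 : G) ≤ (q.1 : G) * (q.2 : G)) :
    IsHomeomorph (fun p : A × B => (p.1 : G) * (p.2 : G)) := by
  have hdisj : Disjoint A B := by
    rw [Subgroup.disjoint_def]
    intro x hxA hxB
    have h1 : ((⟨x, hxA⟩, ⟨x⁻¹, B.inv_mem hxB⟩) : A × B) = (1, 1) := by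
      apply hbij.1
      show x * x⁻¹ = 1 * 1
      rw [mul_inv_cancel, mul_one]
    have h2 := congrArg (fun p : A × B => (p.1 : G)) h1
    exact h2
  have hcomm : ∀ x y : G, x ∈ A → y ∈ B → Commute x y := fun x y hx hy =>
    Subgroup.commute_of_normal_of_disjoint A B hA hB hdisj x y hx hy
  let phi : A × B →* G :=
    { toFun := fun p => (p.1 : G) * (p.2 : G)
      map_one' := by simp
      map_mul' := by
        intro p q
        show ((p.1 : G) * (q.1 : G)) * ((p.2 : G) * (q.2 : G)) =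
          ((p.1 : G) * (p.2 : G)) * ((q.1 : G) * (q.2 : G))
        have h := (hcomm (q.1 : G) (p.2 : G) q.1.2 p.2.2).eq
        calc ((p.1 : G) * (q.1 : G)) * ((p.2 : G) * (q.2 : G))
            = (p.1 : G) * ((q.1 : G) * (p.2 : G)) * (q.2 : G) := by group
          _ = (p.1 : G) * ((p.2 : G) * (q.1 : G)) * (q.2 : G) := by rw [h]
          _ = _ := by group }
  have hphi : ∀ p, phi p = (p.1 : G) * (p.2 : G) := fun p => rfl
  let e : A × B ≃* G := MulEquiv.ofBijective phi hbij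
  have he : ∀ p, e p = (p.1 : G) * (p.2 : G) := fun p => rfl
  have hcont : Continuous (fun p : A × B => (p.1 : G) * (p.2 : G)) := by fun_prop
  -- the two components of the inverse lie between the inverse of the absolute value and it
  have key : ∀ g : G, ((g ⊔ g⁻¹)⁻¹ ≤ ((e.symm g).1 : G) ∧ ((e.symm g).1 : G) ≤ g ⊔ g⁻¹) ∧
      ((g ⊔ g⁻¹)⁻¹ ≤ ((e.symm g).2 : G) ∧ ((e.symm g).2 : G) ≤ g ⊔ g⁻¹) := by
    intro g
    obtain ⟨p, hp⟩ := e.surjective g
    obtain ⟨q, hq⟩ := e.surjective (g ⊔ g⁻¹)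
    have hes : e.symm g = p := by rw [← hp, e.symm_apply_apply]
    have h1 : p ≤ q := by
      rw [hord, ← he, ← he, hp, hq]
      exact le_sup_left
    have h2 : p⁻¹ ≤ q := by
      rw [hord, ← he, ← he, map_inv, hp, hq]
      exact le_sup_right
    have h3 : (1 : A × B) ≤ q := by
      rw [hord, ← he, ← he, map_one, hq]
      exact one_le_sup_inv g
    have h31 : (1 : G) ≤ (q.1 : G) := h3.1
    have h32 : (1 : G) ≤ (q.2 : G) := h3.2
    have h11 : (p.1 : G) ≤ (q.1 : G) := h1.1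
    have h12 : (p.2 : G) ≤ (q.2 : G) := h1.2
    have h21 : (p.1 : G)⁻¹ ≤ (q.1 : G) := h2.1
    have h22 : (p.2 : G)⁻¹ ≤ (q.2 : G) := h2.2
    have hq1 : (q.1 : G) ≤ g ⊔ g⁻¹ := by
      rw [← hq, he]
      exact le_mul_of_one_le_right' h32
    have hq2 : (q.2 : G) ≤ g ⊔ g⁻¹ := by
      rw [← hq, he]
      exact le_mul_of_one_le_left' h31
    rw [hes]
    exact ⟨⟨inv_le'.1 (h21.trans hq1), h11.trans hq1⟩, ⟨inv_le'.1 (h22.trans hq2), h12.trans hq2⟩⟩
  have habs : Filter.Tendsto (fun g : G => g ⊔ g⁻¹) (𝓝 1) (𝓝 1) := by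
    have hc : Continuous fun g : G => g ⊔ g⁻¹ := continuous_id.sup continuous_inv
    have h := hc.tendsto 1
    simpa using h
  have hinv : Filter.Tendsto (fun g : G => (g ⊔ g⁻¹)⁻¹) (𝓝 1) (𝓝 1) := by
    have h := (continuous_inv.tendsto (1 : G)).comp habs
    rw [inv_one] at h
    exact h
  have hconv2 : ∀ f : G → G, (∀ g, (g ⊔ g⁻¹)⁻¹ ≤ f g ∧ f g ≤ g ⊔ g⁻¹) →
      Filter.Tendsto f (𝓝 1) (𝓝 1) := by
    intro f hf U hU
    obtain ⟨V, hV, hVU, hVc⟩ := hconv U hU
    have h1 := habs hV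
    have h2 := hinv hV
    rw [Filter.mem_map] at h1 h2 ⊢
    filter_upwards [h1, h2] with g hg1 hg2
    exact hVU (hVc.out hg2 hg1 ⟨(hf g).1, (hf g).2⟩)
  have hsymm : Continuous e.symm := by
    apply continuous_of_continuousAt_one e.symm.toMonoidHom
    show Filter.Tendsto (fun g => e.symm g) (𝓝 1) (𝓝 (e.symm 1))
    rw [map_one]
    refine Filter.Tendsto.prodMk_nhds ?_ ?_
    · rw [tendsto_subtype_rng]
      exact hconv2 _ fun g => (key g).1
    · rw [tendsto_subtype_rng]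
      exact hconv2 _ fun g => (key g).2
  exact (Homeomorph.mk e.toEquiv hcont hsymm).isHomeomorph

end Pool.Agent.H71N
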