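import Pool.Agent.Lib.H71N.Normed
import Pool.Agent.Lib.H71N.Positive

set_option autoImplicit false

namespace Pool.Agent.H71N

theorem final : ∃ (E : Type) (_ : NormedAddCommGroup E) (_ : NormedSpace ℝ E) (_ : Lattice E)
    (A B : Submodule ℝ E),
    (∀ x y w : E, x ≤ y → w + x ≤ w + y) ∧
    (∀ (r : ℝ) (x y : E), 0 ≤ r → x ≤ y → r • x ≤ r • y) ∧
    (∀ x y : E, (∀ n : ℕ, n • x ≤ y) → x ≤ 0) ∧
    Continuous (fun p : E × E => p.1 ⊔ p.2) ∧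
    Continuous (fun p : E × E => p.1 ⊓ p.2) ∧
    IsClosed (A : Set E) ∧ IsClosed (B : Set E) ∧
    (∀ x ∈ A, ∀ y ∈ A, x ⊔ y ∈ A ∧ x ⊓ y ∈ A) ∧
    (∀ x ∈ B, ∀ y ∈ B, x ⊔ y ∈ B ∧ x ⊓ y ∈ B) ∧
    (∀ x y : E, x ⊔ -x ≤ y ⊔ -y → y ∈ A → x ∈ A) ∧
    (∀ x y : E, x ⊔ -x ≤ y ⊔ -y → y ∈ B → x ∈ B) ∧
    Function.Bijective (fun p : A × B => (p.1 : E) + (p.2 : E)) ∧
    (∀ p q : A × B, p ≤ q ↔ (p.1 : E) + (p.2 : E) ≤ (q.1 : E) + (q.2 : E)) ∧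
    ¬ IsHomeomorph (fun p : A × B => (p.1 : E) + (p.2 : E)) :=
  ⟨E, inferInstance, inferInstance, inferInstance, A, B, order_add, order_smul, archimedean,
    continuous_sup, continuous_inf, isClosed_A, isClosed_B, fun x hx y hy => lattice_A x y hx hy,
    fun x hx y hy => lattice_B x y hx hy, solid_A, solid_B, mu_bijective, mu_order, not_homeo⟩

end Pool.Agent.H71N
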