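import Mathlib

set_option autoImplicit false

/-! A normed real vector lattice with continuous lattice operations which is the direct sum of
two closed ideals, but not topologically. -/

namespace Pool.Agent.H71N

noncomputable section

open BoundedContinuousFunction

/-- Finitely supported real sequences as bounded functions on the natural numbers. -/
def toB : (ℕ →₀ ℝ) →ₗ[ℝ] (ℕ →ᵇ ℝ) where
  toFun u := BoundedContinuousFunction.ofNormedAddCommGroupDiscrete (fun n => u n)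
    (∑ n ∈ u.support, |u n|) (by
      intro n
      by_cases hn : n ∈ u.support
      · have := Finset.single_le_sum (f := fun n => |u n|) (fun i _ => abs_nonneg _) hn
        simpa [Real.norm_eq_abs] using this
      · have h0 : u n = 0 := by simpa using hn
        rw [h0, norm_zero]
        exact Finset.sum_nonneg fun i _ => abs_nonneg _)
  map_add' u v := by
    ext n
    rfl
  map_smul' r u := by
    ext n
    rfl

@[simp] theorem toB_apply (u : ℕ →₀ ℝ) (n : ℕ) : toB u n = u n := rfl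

/-- The weight `(1/2)^n`. -/
def W : ℕ →ᵇ ℝ := BoundedContinuousFunction.ofNormedAddCommGroupDiscrete (fun n => (1 / 2 : ℝ) ^ n)
    1 (by
      intro n
      rw [norm_pow]
      exact pow_le_one₀ (norm_nonneg _) (by norm_num))

@[simp] theorem W_apply (n : ℕ) : W n = (1 / 2 : ℝ) ^ n := rfl

/-- Pairs of finitely supported real sequences. -/
def E : Type := (ℕ →₀ ℝ) × (ℕ →₀ ℝ)

instance : AddCommGroup E := inferInstanceAs (AddCommGroup ((ℕ →₀ ℝ) × (ℕ →₀ ℝ)))
instance : Module ℝ E := inferInstanceAs (Module ℝ ((ℕ →₀ ℝ) × (ℕ →₀ ℝ)))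
instance : Lattice E := inferInstanceAs (Lattice ((ℕ →₀ ℝ) × (ℕ →₀ ℝ)))

/-- The embedding of `E` which defines the norm. -/
def Phi : E →ₗ[ℝ] (ℕ →ᵇ ℝ) × (ℕ →ᵇ ℝ) where
  toFun p := (W * toB p.1, toB p.1 - toB p.2)
  map_add' p q := by
    refine Prod.ext ?_ ?_
    · ext n
      show (1 / 2 : ℝ) ^ n * (p.1 n + q.1 n) = (1 / 2 : ℝ) ^ n * p.1 n + (1 / 2 : ℝ) ^ n * q.1 n
      ring
    · ext n
      show (p.1 n + q.1 n) - (p.2 n + q.2 n) = (p.1 n - p.2 n) + (q.1 n - q.2 n)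
      ring
  map_smul' r p := by
    refine Prod.ext ?_ ?_
    · ext n
      show (1 / 2 : ℝ) ^ n * (r * p.1 n) = r * ((1 / 2 : ℝ) ^ n * p.1 n)
      ring
    · ext n
      show r * p.1 n - r * p.2 n = r * (p.1 n - p.2 n)
      ring

theorem Phi_fst (p : E) (n : ℕ) : (Phi p).1 n = (1 / 2 : ℝ) ^ n * p.1 n := rfl

theorem Phi_snd (p : E) (n : ℕ) : (Phi p).2 n = p.1 n - p.2 n := rfl

theorem Phi_injective : Function.Injective Phi := by
  intro p q h
  have h1 : ∀ n, p.1 n = q.1 n := by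
    intro n
    have h2 : (Phi p).1 n = (Phi q).1 n := by rw [h]
    rw [Phi_fst, Phi_fst] at h2
    exact mul_left_cancel₀ (by positivity) h2
  have h2 : ∀ n, p.2 n = q.2 n := by
    intro n
    have h3 : (Phi p).2 n = (Phi q).2 n := by rw [h]
    rw [Phi_snd, Phi_snd, h1 n] at h3
    linarith
  exact Prod.ext (Finsupp.ext h1) (Finsupp.ext h2)

instance : NormedAddCommGroup E :=
  NormedAddCommGroup.induced E ((ℕ →ᵇ ℝ) × (ℕ →ᵇ ℝ)) Phi Phi_injective

instance : NormedSpace ℝ E := NormedSpace.induced ℝ E ((ℕ →ᵇ ℝ) × (ℕ →ᵇ ℝ)) Phi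

theorem norm_eq (p : E) : ‖p‖ = max ‖(Phi p).1‖ ‖(Phi p).2‖ := rfl

theorem coord_le (p : E) (n : ℕ) : |p.1 n| ≤ 2 ^ n * ‖p‖ := by
  have h1 : ‖(Phi p).1 n‖ ≤ ‖(Phi p).1‖ := BoundedContinuousFunction.norm_coe_le_norm _ n
  have h2 : ‖(Phi p).1‖ ≤ ‖p‖ := by rw [norm_eq]; exact le_max_left _ _
  rw [Phi_fst, Real.norm_eq_abs, abs_mul, abs_of_nonneg (by positivity : (0 : ℝ) ≤ (1 / 2) ^ n)] at h1
  have h3 : (1 / 2 : ℝ) ^ n * |p.1 n| ≤ ‖p‖ := h1.trans h2
  have h4 : (2 : ℝ) ^ n * ((1 / 2 : ℝ) ^ n * |p.1 n|) = |p.1 n| := by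
    rw [← mul_assoc, ← mul_pow]; norm_num
  rw [← h4]
  exact mul_le_mul_of_nonneg_left h3 (by positivity)

theorem diff_le (p : E) (n : ℕ) : |p.1 n - p.2 n| ≤ ‖p‖ := by
  have h1 : ‖(Phi p).2 n‖ ≤ ‖(Phi p).2‖ := BoundedContinuousFunction.norm_coe_le_norm _ n
  have h2 : ‖(Phi p).2‖ ≤ ‖p‖ := by rw [norm_eq]; exact le_max_right _ _
  rw [Phi_snd, Real.norm_eq_abs] at h1
  exact h1.trans h2

theorem coord2_le (p : E) (n : ℕ) : |p.2 n| ≤ (2 ^ n + 1) * ‖p‖ := by
  have h1 := coord_le p n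
  have h2 := diff_le p n
  have h3 : |p.2 n| ≤ |p.1 n| + |p.1 n - p.2 n| := by
    have h4 : p.2 n = p.1 n - (p.1 n - p.2 n) := by ring
    calc |p.2 n| = |p.1 n - (p.1 n - p.2 n)| := by rw [← h4]
      _ ≤ _ := abs_sub _ _
  calc |p.2 n| ≤ |p.1 n| + |p.1 n - p.2 n| := h3
    _ ≤ 2 ^ n * ‖p‖ + ‖p‖ := add_le_add h1 h2
    _ = _ := by ring

/-- A sufficient condition for a bound of the norm. -/
theorem norm_le_of (p : E) (C : ℝ) (hC : 0 ≤ C) (h1 : ∀ n, (1 / 2 : ℝ) ^ n * |p.1 n| ≤ C)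
    (h2 : ∀ n, |p.1 n - p.2 n| ≤ C) : ‖p‖ ≤ C := by
  rw [norm_eq]
  refine max_le ?_ ?_
  · rw [BoundedContinuousFunction.norm_le hC]
    intro n
    rw [Phi_fst, Real.norm_eq_abs, abs_mul,
      abs_of_nonneg (by positivity : (0 : ℝ) ≤ (1 / 2) ^ n)]
    exact h1 n
  · rw [BoundedContinuousFunction.norm_le hC]
    intro n
    rw [Phi_snd, Real.norm_eq_abs]
    exact h2 n

theorem sub_fst (p q : E) (n : ℕ) : (p - q).1 n = p.1 n - q.1 n := rfl

theorem sub_snd (p q : E) (n : ℕ) : (p - q).2 n = p.2 n - q.2 n := rfl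

/-- A coordinatewise operation given by a function of two real numbers which is 1-Lipschitz and
fixes `0` satisfies a Lipschitz bound at every point. -/
theorem op_bound (op : ℝ → ℝ → ℝ)
    (hop : ∀ a b a' b', |op a b - op a' b'| ≤ max |a - a'| |b - b'|) (h0 : op 0 0 = 0)
    (F : E → E → E) (h1 : ∀ p q n, (F p q).1 n = op (p.1 n) (q.1 n))
    (h2 : ∀ p q n, (F p q).2 n = op (p.2 n) (q.2 n)) (p0 q0 : E) :
    ∃ C : ℝ, 0 ≤ C ∧ ∀ p q, ‖F p q - F p0 q0‖ ≤ C * max ‖p - p0‖ ‖q - q0‖ := by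
  classical
  let S : Finset ℕ := (p0.1.support ∪ p0.2.support) ∪ (q0.1.support ∪ q0.2.support)
  refine ⟨2 * 2 ^ (S.sup id) + 1, by positivity, fun p q => ?_⟩
  set M := max ‖p - p0‖ ‖q - q0‖ with hM
  have hM0 : 0 ≤ M := (norm_nonneg _).trans (le_max_left _ _)
  have hC1 : M ≤ (2 * 2 ^ (S.sup id) + 1) * M := by
    have : (0 : ℝ) ≤ 2 * 2 ^ (S.sup id) * M := by positivity
    linarith
  have hb1 : ∀ n, |(F p q).1 n - (F p0 q0).1 n| ≤ 2 ^ n * M := by
    intro n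
    rw [h1, h1]
    refine (hop _ _ _ _).trans (max_le ?_ ?_)
    · rw [← sub_fst]
      exact (coord_le _ n).trans (mul_le_mul_of_nonneg_left (le_max_left _ _) (by positivity))
    · rw [← sub_fst]
      exact (coord_le _ n).trans (mul_le_mul_of_nonneg_left (le_max_right _ _) (by positivity))
  have hb2 : ∀ n, |(F p q).2 n - (F p0 q0).2 n| ≤ (2 ^ n + 1) * M := by
    intro n
    rw [h2, h2]
    refine (hop _ _ _ _).trans (max_le ?_ ?_)
    · rw [← sub_snd]
      exact (coord2_le _ n).trans (mul_le_mul_of_nonneg_left (le_max_left _ _) (by positivity))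
    · rw [← sub_snd]
      exact (coord2_le _ n).trans (mul_le_mul_of_nonneg_left (le_max_right _ _) (by positivity))
  refine norm_le_of _ _ (by positivity) ?_ ?_
  · intro n
    rw [sub_fst]
    refine le_trans ?_ hC1
    calc (1 / 2 : ℝ) ^ n * |(F p q).1 n - (F p0 q0).1 n| ≤ (1 / 2 : ℝ) ^ n * (2 ^ n * M) :=
          mul_le_mul_of_nonneg_left (hb1 n) (by positivity)
      _ = M := by rw [← mul_assoc, ← mul_pow]; norm_num
  · intro n
    rw [sub_fst, sub_snd]
    by_cases hn : n ∈ S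
    · have hnS : n ≤ S.sup id := Finset.le_sup (f := id) hn
      have h2n : (2 : ℝ) ^ n ≤ 2 ^ (S.sup id) := pow_le_pow_right₀ (by norm_num) hnS
      have he : (F p q).1 n - (F p0 q0).1 n - ((F p q).2 n - (F p0 q0).2 n) =
          ((F p q).1 n - (F p0 q0).1 n) - ((F p q).2 n - (F p0 q0).2 n) := rfl
      calc |(F p q).1 n - (F p0 q0).1 n - ((F p q).2 n - (F p0 q0).2 n)|
          ≤ |(F p q).1 n - (F p0 q0).1 n| + |(F p q).2 n - (F p0 q0).2 n| := abs_sub _ _
        _ ≤ 2 ^ n * M + (2 ^ n + 1) * M := add_le_add (hb1 n) (hb2 n)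
        _ ≤ 2 ^ (S.sup id) * M + (2 ^ (S.sup id) + 1) * M := by
            refine add_le_add (mul_le_mul_of_nonneg_right h2n hM0)
              (mul_le_mul_of_nonneg_right (by linarith) hM0)
        _ = _ := by ring
    · have hz : p0.1 n = 0 ∧ p0.2 n = 0 ∧ q0.1 n = 0 ∧ q0.2 n = 0 := by
        simp only [S, Finset.mem_union, Finsupp.mem_support_iff, not_or, not_not] at hn
        exact ⟨hn.1.1, hn.1.2, hn.2.1, hn.2.2⟩
      obtain ⟨z1, z2, z3, z4⟩ := hz
      have e1 : (F p0 q0).1 n = 0 := by rw [h1, z1, z3, h0]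
      have e2 : (F p0 q0).2 n = 0 := by rw [h2, z2, z4, h0]
      rw [e1, e2, sub_zero, sub_zero, h1, h2]
      refine le_trans ((hop _ _ _ _).trans (max_le ?_ ?_)) hC1
      · have h3 := diff_le (p - p0) n
        rw [sub_fst, sub_snd, z1, z2, sub_zero, sub_zero] at h3
        exact h3.trans (le_max_left _ _)
      · have h3 := diff_le (q - q0) n
        rw [sub_fst, sub_snd, z3, z4, sub_zero, sub_zero] at h3
        exact h3.trans (le_max_right _ _)

theorem continuous_op (op : ℝ → ℝ → ℝ)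
    (hop : ∀ a b a' b', |op a b - op a' b'| ≤ max |a - a'| |b - b'|) (h0 : op 0 0 = 0)
    (F : E → E → E) (h1 : ∀ p q n, (F p q).1 n = op (p.1 n) (q.1 n))
    (h2 : ∀ p q n, (F p q).2 n = op (p.2 n) (q.2 n)) :
    Continuous fun x : E × E => F x.1 x.2 := by
  rw [continuous_iff_continuousAt]
  rintro ⟨p0, q0⟩
  obtain ⟨C, _, hC⟩ := op_bound op hop h0 F h1 h2 p0 q0
  rw [ContinuousAt, tendsto_iff_norm_sub_tendsto_zero]
  have hlim : Filter.Tendsto (fun x : E × E => C * max ‖x.1 - p0‖ ‖x.2 - q0‖)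
      (nhds (p0, q0)) (nhds 0) := by
    have hc : Continuous fun x : E × E => C * max ‖x.1 - p0‖ ‖x.2 - q0‖ := by fun_prop
    have h3 := hc.tendsto (p0, q0)
    simpa using h3
  exact squeeze_zero (fun x => norm_nonneg _) (fun x => hC x.1 x.2) hlim

theorem continuous_sup : Continuous fun x : E × E => x.1 ⊔ x.2 := by
  refine continuous_op max (fun a b a' b' => ?_) (by simp) (fun p q => p ⊔ q)
    (fun p q n => rfl) (fun p q n => rfl)
  exact abs_max_sub_max_le_max a b a' b'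

theorem continuous_inf : Continuous fun x : E × E => x.1 ⊓ x.2 := by
  refine continuous_op min (fun a b a' b' => ?_) (by simp) (fun p q => p ⊓ q)
    (fun p q n => rfl) (fun p q n => rfl)
  exact abs_min_sub_min_le_max a b a' b'

/-- The first summand. -/
def A : Submodule ℝ E where
  carrier := {p | p.2 = 0}
  add_mem' := by
    intro p q hp hq
    show p.2 + q.2 = 0
    rw [show p.2 = 0 from hp, show q.2 = 0 from hq, add_zero]
  zero_mem' := rfl
  smul_mem' := by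
    intro r p hp
    show r • p.2 = 0
    rw [show p.2 = 0 from hp, smul_zero]

/-- The second summand. -/
def B : Submodule ℝ E where
  carrier := {p | p.1 = 0}
  add_mem' := by
    intro p q hp hq
    show p.1 + q.1 = 0
    rw [show p.1 = 0 from hp, show q.1 = 0 from hq, add_zero]
  zero_mem' := rfl
  smul_mem' := by
    intro r p hp
    show r • p.1 = 0
    rw [show p.1 = 0 from hp, smul_zero]

theorem mem_A (p : E) : p ∈ A ↔ p.2 = 0 := Iff.rfl

theorem mem_B (p : E) : p ∈ B ↔ p.1 = 0 := Iff.rfl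

theorem continuous_coord (n : ℕ) : Continuous fun p : E => p.1 n := by
  rw [continuous_iff_continuousAt]
  intro p0
  rw [ContinuousAt, tendsto_iff_norm_sub_tendsto_zero]
  have hlim : Filter.Tendsto (fun x : E => (2 : ℝ) ^ n * ‖x - p0‖) (nhds p0) (nhds 0) := by
    have hc : Continuous fun x : E => (2 : ℝ) ^ n * ‖x - p0‖ := by fun_prop
    have h3 := hc.tendsto p0
    simpa using h3
  exact squeeze_zero (fun x => norm_nonneg _) (fun x => coord_le (x - p0) n) hlim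

theorem continuous_coord2 (n : ℕ) : Continuous fun p : E => p.2 n := by
  rw [continuous_iff_continuousAt]
  intro p0
  rw [ContinuousAt, tendsto_iff_norm_sub_tendsto_zero]
  have hlim : Filter.Tendsto (fun x : E => ((2 : ℝ) ^ n + 1) * ‖x - p0‖) (nhds p0) (nhds 0) := by
    have hc : Continuous fun x : E => ((2 : ℝ) ^ n + 1) * ‖x - p0‖ := by fun_prop
    have h3 := hc.tendsto p0
    simpa using h3
  exact squeeze_zero (fun x => norm_nonneg _) (fun x => coord2_le (x - p0) n) hlim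

theorem isClosed_A : IsClosed (A : Set E) := by
  have h : (A : Set E) = ⋂ n : ℕ, {p : E | p.2 n = 0} := by
    ext p
    simp only [Set.mem_iInter, Set.mem_ofPred_eq, SetLike.mem_coe, mem_A]
    exact Finsupp.ext_iff
  rw [h]
  exact isClosed_iInter fun n => isClosed_eq (continuous_coord2 n) continuous_const

theorem isClosed_B : IsClosed (B : Set E) := by
  have h : (B : Set E) = ⋂ n : ℕ, {p : E | p.1 n = 0} := by
    ext p
    simp only [Set.mem_iInter, Set.mem_ofPred_eq, SetLike.mem_coe, mem_B]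
    exact Finsupp.ext_iff
  rw [h]
  exact isClosed_iInter fun n => isClosed_eq (continuous_coord n) continuous_const

theorem le_iff (p q : E) : p ≤ q ↔ (∀ n, p.1 n ≤ q.1 n) ∧ (∀ n, p.2 n ≤ q.2 n) := Iff.rfl

theorem add_fst (p q : E) : (p + q).1 = p.1 + q.1 := rfl

theorem add_snd (p q : E) : (p + q).2 = p.2 + q.2 := rfl

/-- The addition map. -/
def mu (p : A × B) : E := (p.1 : E) + (p.2 : E)

theorem mu_bijective : Function.Bijective mu := by
  constructor
  · rintro ⟨⟨a, ha⟩, ⟨b, hb⟩⟩ ⟨⟨a', ha'⟩, ⟨b', hb'⟩⟩ h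
    rw [mem_A] at ha ha'
    rw [mem_B] at hb hb'
    have h' : a + b = a' + b' := h
    have h1 : a.1 + b.1 = a'.1 + b'.1 := by rw [← add_fst, h', add_fst]
    have h2 : a.2 + b.2 = a'.2 + b'.2 := by rw [← add_snd, h', add_snd]
    rw [hb, hb', add_zero, add_zero] at h1
    rw [ha, ha', zero_add, zero_add] at h2
    have e1 : a = a' := Prod.ext h1 (by rw [ha, ha'])
    have e2 : b = b' := Prod.ext (by rw [hb, hb']) h2
    subst e1
    subst e2
    rfl
  · intro p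
    refine ⟨(⟨(p.1, 0), rfl⟩, ⟨(0, p.2), rfl⟩), ?_⟩
    exact Prod.ext (add_zero _) (zero_add _)

theorem mu_order (p q : A × B) : p ≤ q ↔ mu p ≤ mu q := by
  obtain ⟨⟨a, ha⟩, ⟨b, hb⟩⟩ := p
  obtain ⟨⟨a', ha'⟩, ⟨b', hb'⟩⟩ := q
  rw [mem_A] at ha ha'
  rw [mem_B] at hb hb'
  have e1 : ((⟨⟨a, ha⟩, ⟨b, hb⟩⟩ : A × B) ≤ (⟨⟨a', ha'⟩, ⟨b', hb'⟩⟩ : A × B)) ↔
    (a ≤ a' ∧ b ≤ b') := Iff.rfl
  have e2 : (mu (⟨⟨a, ha⟩, ⟨b, hb⟩⟩ : A × B) ≤ mu (⟨⟨a', ha'⟩, ⟨b', hb'⟩⟩ : A × B)) ↔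
    (a + b ≤ a' + b') := Iff.rfl
  rw [e1, e2, le_iff, le_iff, le_iff, add_fst, add_fst, add_snd, add_snd, ha, ha', hb, hb',
    add_zero, add_zero, zero_add, zero_add]
  constructor
  · rintro ⟨⟨h1, -⟩, ⟨-, h2⟩⟩
    exact ⟨h1, h2⟩
  · rintro ⟨h1, h2⟩
    exact ⟨⟨h1, fun n => le_refl _⟩, ⟨fun n => le_refl _, h2⟩⟩

/-- The pair of two sequences. -/
def mkE (a b : ℕ →₀ ℝ) : E := (a, b)

/-- The element `(e_k, e_k)`. -/
def z (k : ℕ) : E := mkE (Finsupp.single k 1) (Finsupp.single k 1)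

theorem norm_z (k : ℕ) : ‖z k‖ ≤ (1 / 2 : ℝ) ^ k := by
  refine norm_le_of _ _ (by positivity) ?_ ?_
  · intro n
    show (1 / 2 : ℝ) ^ n * |(Finsupp.single k (1 : ℝ)) n| ≤ _
    by_cases h : k = n
    · subst h
      simp
    · rw [Finsupp.single_eq_of_ne (Ne.symm h), abs_zero, mul_zero]
      positivity
  · intro n
    show |(Finsupp.single k (1 : ℝ)) n - (Finsupp.single k (1 : ℝ)) n| ≤ _
    rw [sub_self, abs_zero]
    positivity

theorem norm_part (k : ℕ) : 1 ≤ ‖mkE (Finsupp.single k 1) 0‖ := by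
  have h := diff_le (mkE (Finsupp.single k 1) 0) k
  have h2 : |(Finsupp.single k (1 : ℝ)) k - (0 : ℕ →₀ ℝ) k| ≤ ‖mkE (Finsupp.single k 1) 0‖ := h
  simpa using h2

theorem not_homeo : ¬ IsHomeomorph mu := by
  intro h
  let e := h.homeomorph mu
  have he : ∀ p, e p = mu p := fun p => rfl
  have hz : Filter.Tendsto z Filter.atTop (nhds 0) := by
    rw [tendsto_zero_iff_norm_tendsto_zero]
    exact squeeze_zero (fun k => norm_nonneg _) norm_z
      (tendsto_pow_atTop_nhds_zero_of_lt_one (by norm_num) (by norm_num))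
  have h1 : Filter.Tendsto (fun k => e.symm (z k)) Filter.atTop (nhds (e.symm 0)) :=
    (e.symm.continuous.tendsto 0).comp hz
  have hs : ∀ k, e.symm (z k) =
      ((⟨mkE (Finsupp.single k 1) 0, rfl⟩, ⟨mkE 0 (Finsupp.single k 1), rfl⟩) : A × B) := by
    intro k
    rw [e.symm_apply_eq]
    rw [he]
    exact (Prod.ext (add_zero _) (zero_add _) : _ = z k).symm
  have hs0 : e.symm 0 = 0 := by
    rw [e.symm_apply_eq, he]
    exact (add_zero _).symm
  have h2 : Filter.Tendsto (fun k => ‖((e.symm (z k)).1 : E)‖) Filter.atTop (nhds 0) := by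
    have hc : Continuous fun p : A × B => ‖(p.1 : E)‖ := by fun_prop
    have h3 := (hc.tendsto (e.symm 0)).comp h1
    rw [hs0] at h3
    have h4 : ‖((0 : A × B).1 : E)‖ = 0 := norm_zero
    rw [h4] at h3
    exact h3
  have h5 : (1 : ℝ) ≤ 0 := by
    refine ge_of_tendsto' h2 fun k => ?_
    rw [hs k]
    exact norm_part k
  linarith

theorem order_add (x y w : E) (h : x ≤ y) : w + x ≤ w + y := by
  rw [le_iff] at h ⊢
  exact ⟨fun n => add_le_add_right (h.1 n) _, fun n => add_le_add_right (h.2 n) _⟩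

theorem order_smul (r : ℝ) (x y : E) (hr : 0 ≤ r) (h : x ≤ y) : r • x ≤ r • y := by
  rw [le_iff] at h ⊢
  exact ⟨fun n => mul_le_mul_of_nonneg_left (h.1 n) hr,
    fun n => mul_le_mul_of_nonneg_left (h.2 n) hr⟩

theorem archimedean (x y : E) (h : ∀ n : ℕ, n • x ≤ y) : x ≤ 0 := by
  have key : ∀ a b : ℝ, (∀ n : ℕ, (n : ℝ) * a ≤ b) → a ≤ 0 := by
    intro a b hab
    by_contra ha
    push Not at ha
    obtain ⟨n, hn⟩ := exists_nat_gt (b / a)
    have h1 := hab n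
    rw [div_lt_iff₀ ha] at hn
    linarith
  rw [le_iff]
  refine ⟨fun m => key _ (y.1 m) fun n => ?_, fun m => key _ (y.2 m) fun n => ?_⟩
  · have h1 := ((le_iff _ _).1 (h n)).1 m
    have h2 : (n • x).1 m = (n : ℝ) * x.1 m := by
      show (n • x.1) m = _
      rw [Finsupp.smul_apply, nsmul_eq_mul]
    rw [← h2]
    exact h1
  · have h1 := ((le_iff _ _).1 (h n)).2 m
    have h2 : (n • x).2 m = (n : ℝ) * x.2 m := by
      show (n • x.2) m = _
      rw [Finsupp.smul_apply, nsmul_eq_mul]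
    rw [← h2]
    exact h1

theorem solid_A (x y : E) (h : x ⊔ -x ≤ y ⊔ -y) (hy : y ∈ A) : x ∈ A := by
  rw [mem_A] at hy ⊢
  ext n
  have h1 := ((le_iff _ _).1 h).2 n
  have h2 : (x ⊔ -x).2 n = |x.2 n| := rfl
  have h3 : (y ⊔ -y).2 n = |y.2 n| := rfl
  rw [h2, h3, hy] at h1
  have h4 : |x.2 n| ≤ 0 := by simpa using h1
  exact abs_nonpos_iff.1 h4

theorem solid_B (x y : E) (h : x ⊔ -x ≤ y ⊔ -y) (hy : y ∈ B) : x ∈ B := by
  rw [mem_B] at hy ⊢
  ext n
  have h1 := ((le_iff _ _).1 h).1 n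
  have h2 : (x ⊔ -x).1 n = |x.1 n| := rfl
  have h3 : (y ⊔ -y).1 n = |y.1 n| := rfl
  rw [h2, h3, hy] at h1
  have h4 : |x.1 n| ≤ 0 := by simpa using h1
  exact abs_nonpos_iff.1 h4

theorem lattice_A (x y : E) (hx : x ∈ A) (hy : y ∈ A) : x ⊔ y ∈ A ∧ x ⊓ y ∈ A := by
  rw [mem_A] at hx hy
  constructor
  · show x.2 ⊔ y.2 = 0
    rw [hx, hy, sup_idem]
  · show x.2 ⊓ y.2 = 0
    rw [hx, hy, inf_idem]

theorem lattice_B (x y : E) (hx : x ∈ B) (hy : y ∈ B) : x ⊔ y ∈ B ∧ x ⊓ y ∈ B := by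
  rw [mem_B] at hx hy
  constructor
  · show x.1 ⊔ y.1 = 0
    rw [hx, hy, sup_idem]
  · show x.1 ⊓ y.1 = 0
    rw [hx, hy, inf_idem]

end

end Pool.Agent.H71N
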